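import Pool.Agent.Lib.MP_c7af3c_ag.EDGE.Iface
import Pool.Agent.Lib.MP_c7af3c_ag.EDGE.H19.Refine

/-!
# MP_c7af3c_ag, project EDGE: from the plane to the core (helper60)
-/

set_option autoImplicit false
set_option linter.unusedSectionVars false

namespace Pool.Agent.Edge.H60

open MvPolynomial WithZero Pool.Agent.Gen Pool.Agent.Sharp Pool.Agent.Lines.H75
open Pool.Agent.Edge.H19

/-! ### homogeneous components -/

theorem hc_mul {Ω σ : Type} [Field Ω] (l : MvPolynomial σ Ω) (hl : l.IsHomogeneous 1) (r : ℕ)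
    (B : MvPolynomial σ Ω) :
    homogeneousComponent (r + 1) (l * B) = l * homogeneousComponent r B := by
  induction B using MvPolynomial.induction_on' with
  | monomial u a =>
    have h1 : (monomial u a : MvPolynomial σ Ω).IsHomogeneous u.degree :=
      isHomogeneous_monomial a rfl
    have h2 : (l * monomial u a).IsHomogeneous (u.degree + 1) := by
      rw [add_comm]
      exact hl.mul h1
    rw [homogeneousComponent_of_mem h2, homogeneousComponent_of_mem h1]
    by_cases h : r = u.degree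
    · rw [if_pos h, if_pos (by omega)]
    · rw [if_neg h, if_neg (by omega), mul_zero]
  | add p q hp hq => rw [mul_add, map_add, hp, hq, map_add, mul_add]

theorem hom_lin {Ω σ : Type} [Field Ω] (i j : σ) (a : Ω) :
    (X i - C a * X j : MvPolynomial σ Ω).IsHomogeneous 1 := by
  refine (isHomogeneous_X Ω i).sub ?_
  simpa using (isHomogeneous_C _ a).mul (isHomogeneous_X Ω j)

/-! ### the plane -/

section plane

variable {Ω : Type} [Field Ω] {n : ℕ} {r : ℕ} (D : DSys Ω n 1 fun _ => r)
  (x : Fin (n + 1) → Ω) {j0 : Fin (n + 1)} (t : Fin 3 → Fin (n + 1))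
  (P : Fin 3 → Fin (n + 1) → Ω)

theorem VT1 (G : Fin 1 → MvPolynomial (Fin (n + 1)) Ω) : VT D x G = D.V x 0 (G 0) := by
  rw [VT_apply, Fin.sum_univ_one]

theorem V_j0 (hj0 : x j0 = 1) (G : MvPolynomial (Fin (n + 1)) Ω) : D.V x 0 G j0 = 0 := by
  rw [DSys.V_apply]
  refine Finset.sum_eq_zero fun I _ => ?_
  rw [hj0, Derivation.map_one_eq_zero, mul_zero]

/-- the substitution -/
noncomputable def rho : MvPolynomial (Fin (n + 1)) Ω →ₐ[Ω] MvPolynomial (Fin (n + 1)) Ω :=
  (rename t).comp (resP P)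

theorem rho_apply (f : MvPolynomial (Fin (n + 1)) Ω) : rho t P f = rename t (resP P f) := rfl

theorem rho_X (f : Fin (n + 1)) : rho t P (X f) = ∑ i, C (P i f) * X (t i) := by
  rw [rho_apply]
  unfold resP
  rw [aeval_X, map_sum]
  refine Finset.sum_congr rfl fun i _ => ?_
  rw [map_mul, rename_X, rename_C]

theorem hom_resP {f : MvPolynomial (Fin (n + 1)) Ω} {s : ℕ} (hf : f.IsHomogeneous s) :
    (resP P f).IsHomogeneous s := by
  have h := hf.aeval (R := Ω) (S := Ω) (n := 1)
    (g := fun f => (∑ i, C (P i f) * X i : MvPolynomial (Fin 3) Ω)) (by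
      intro f
      refine IsHomogeneous.sum _ _ _ fun i _ => ?_
      simpa using (isHomogeneous_C (Fin 3) (P i f)).mul (isHomogeneous_X Ω i))
  rw [one_mul] at h
  exact h

theorem hom_rho {f : MvPolynomial (Fin (n + 1)) Ω} {s : ℕ} (hf : f.IsHomogeneous s) :
    (rho t P f).IsHomogeneous s := (hom_resP P hf).rename_isHomogeneous

variable (r' : ℕ) (hr : r = r' + 1)
  (van : ∀ A : MvPolynomial (Fin (n + 1)) Ω, A.IsHomogeneous r' → ∀ f,
    D.V x 0 (A * (X f - ∑ i, C (P i f) * X (t i))) = 0)

include van in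
theorem V_rho_mon (I : Fin (n + 1) →₀ ℕ) : ∀ (s : ℕ) (B : MvPolynomial (Fin (n + 1)) Ω),
    B.IsHomogeneous s → I.degree + s = r' + 1 →
    D.V x 0 (B * monomial I 1) = D.V x 0 (B * rho t P (monomial I 1)) := by
  have hX : ∀ a, ∀ (s : ℕ) (B : MvPolynomial (Fin (n + 1)) Ω),
      B.IsHomogeneous s → 1 + s = r' + 1 →
      D.V x 0 (B * X a) = D.V x 0 (B * rho t P (X a)) := by
    intro a s B hB hs
    have h1 := van B (by rwa [show r' = s by omega]) a
    rw [mul_sub, map_sub, sub_eq_zero] at h1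
    rw [h1, rho_X]
  have hadd : ∀ I J : Fin (n + 1) →₀ ℕ,
      (∀ (s : ℕ) (B : MvPolynomial (Fin (n + 1)) Ω), B.IsHomogeneous s →
        I.degree + s = r' + 1 →
        D.V x 0 (B * monomial I 1) = D.V x 0 (B * rho t P (monomial I 1))) →
      (∀ (s : ℕ) (B : MvPolynomial (Fin (n + 1)) Ω), B.IsHomogeneous s →
        J.degree + s = r' + 1 →
        D.V x 0 (B * monomial J 1) = D.V x 0 (B * rho t P (monomial J 1))) →
      ∀ (s : ℕ) (B : MvPolynomial (Fin (n + 1)) Ω), B.IsHomogeneous s →
        (I + J).degree + s = r' + 1 →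
        D.V x 0 (B * monomial (I + J) 1) = D.V x 0 (B * rho t P (monomial (I + J) 1)) := by
    intro I J hI hJ s B hB hs
    have hIJ : (monomial (I + J) 1 : MvPolynomial (Fin (n + 1)) Ω) =
        monomial I 1 * monomial J 1 := by rw [monomial_mul, one_mul]
    rw [map_add] at hs
    have hmI : (monomial I 1 : MvPolynomial (Fin (n + 1)) Ω).IsHomogeneous I.degree :=
      isHomogeneous_monomial _ rfl
    have hmJ : (monomial J 1 : MvPolynomial (Fin (n + 1)) Ω).IsHomogeneous J.degree :=
      isHomogeneous_monomial _ rfl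
    rw [hIJ, ← mul_assoc, hJ (s + I.degree) (B * monomial I 1) (hB.mul hmI) (by omega),
      map_mul (rho t P)]
    have e1 : B * monomial I 1 * rho t P (monomial J 1) =
        B * rho t P (monomial J 1) * monomial I 1 := by ring
    have e2 : B * (rho t P (monomial I 1) * rho t P (monomial J 1)) =
        B * rho t P (monomial J 1) * rho t P (monomial I 1) := by ring
    rw [e1, e2]
    exact hI (s + J.degree) _ (hB.mul (hom_rho t P hmJ)) (by omega)
  induction I using Finsupp.induction_linear with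
  | zero =>
    intro s B _ _
    have h : (monomial (0 : Fin (n + 1) →₀ ℕ) (1 : Ω)) = 1 := rfl
    rw [h, map_one]
  | add I J hI hJ => exact hadd I J hI hJ
  | single a b =>
    induction b with
    | zero =>
      intro s B _ _
      rw [Finsupp.single_zero]
      have h : (monomial (0 : Fin (n + 1) →₀ ℕ) (1 : Ω)) = 1 := rfl
      rw [h, map_one]
    | succ b ih =>
      rw [Finsupp.single_add]
      refine hadd _ _ ih ?_
      intro s B hB hs
      rw [Finsupp.degree_single] at hs
      exact hX a s B hB hs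

include van in
theorem V_rho {s s' : ℕ} {B f : MvPolynomial (Fin (n + 1)) Ω} (hB : B.IsHomogeneous s)
    (hf : f.IsHomogeneous s') (hs : s' + s = r' + 1) :
    D.V x 0 (B * f) = D.V x 0 (B * rename t (resP P f)) := by
  rw [← rho_apply]
  have h1 : f = ∑ I ∈ f.support, coeff I f • (monomial I 1 : MvPolynomial (Fin (n + 1)) Ω) := by
    conv_lhs => rw [f.as_sum]
    refine Finset.sum_congr rfl fun I _ => ?_
    rw [smul_monomial, smul_eq_mul, mul_one]
  rw [h1, map_sum, Finset.mul_sum, Finset.mul_sum, map_sum, map_sum]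
  refine Finset.sum_congr rfl fun I hI => ?_
  have hI' : I.degree = s' := by
    have h2 := hf (mem_support_iff.1 hI)
    rw [Finsupp.degree_eq_weight_one]
    exact h2
  rw [map_smul, mul_smul_comm, mul_smul_comm, map_smul, map_smul,
    V_rho_mon D x t P r' van I s B hB (by omega)]

end plane

/-! ### integral tuples -/

section int

variable {Ω Q : Type} [Field Ω] [AddCommGroup Q] [Module Ω Q]

theorem I3_mon {e : ℕ} {I : Fin 3 →₀ ℕ} (hI : I.degree = 3 * e + 1) :
    I3 (Ω := Ω) e (monomial I 1) := by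
  classical
  refine ⟨isHomogeneous_monomial _ hI, fun J => ?_⟩
  rw [coeff_monomial]
  split_ifs
  · exact ⟨1, by simp⟩
  · exact ⟨0, by simp⟩

theorem I3_add {e : ℕ} {A A' : MvPolynomial (Fin 3) Ω} (hA : I3 e A) (hA' : I3 e A') :
    I3 e (A + A') := by
  refine ⟨hA.1.add hA'.1, fun J => ?_⟩
  obtain ⟨z, hz⟩ := hA.2 J
  obtain ⟨z', hz'⟩ := hA'.2 J
  exact ⟨z + z', by rw [coeff_add, hz, hz', Int.cast_add]⟩

theorem mon_span {e : ℕ} {A : MvPolynomial (Fin 3) Ω} (hA : A.IsHomogeneous (3 * e + 1)) :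
    A ∈ Submodule.span Ω (Set.range fun I : {I : Fin 3 →₀ ℕ // I.degree = 3 * e + 1} =>
      (monomial I.1 1 : MvPolynomial (Fin 3) Ω)) := by
  rw [A.as_sum]
  refine Submodule.sum_mem _ fun I hI => ?_
  have h1 : (monomial I (coeff I A) : MvPolynomial (Fin 3) Ω) =
      coeff I A • (monomial I 1 : MvPolynomial (Fin 3) Ω) := by
    rw [smul_monomial, smul_eq_mul, mul_one]
  rw [h1]
  refine Submodule.smul_mem _ _ (Submodule.subset_span ⟨⟨I, ?_⟩, rfl⟩)
  have h2 := hA (mem_support_iff.1 hI)
  rw [Finsupp.degree_eq_weight_one]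
  exact h2

theorem wv_update (v : Fin 2 → MvPolynomial (Fin 3) Ω →ₗ[Ω] Q) {e : ℕ}
    (A : Fin e → MvPolynomial (Fin 3) Ω) (s : Fin e) (B : MvPolynomial (Fin 3) Ω) :
    wv v (Function.update A s B) = Function.update (Function.update (wv v A) (Sum.inl s) (v 0 B))
      (Sum.inr s) (v 1 B) := by
  funext k
  rcases k with (j | j)
  · rw [Function.update_of_ne (by simp)]
    by_cases h : j = s
    · subst h
      rw [Function.update_self]
      simp only [wv, Sum.elim_inl, Function.update_self]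
    · rw [Function.update_of_ne (by simpa using h)]
      simp only [wv, Sum.elim_inl, Function.update_of_ne h]
  · by_cases h : j = s
    · subst h
      rw [Function.update_self]
      simp only [wv, Sum.elim_inr, Function.update_self]
    · rw [Function.update_of_ne (by simpa using h), Function.update_of_ne (by simp)]
      simp only [wv, Sum.elim_inr, Function.update_of_ne h]

/-- the bilinear form of the slot `s` -/
noncomputable def b3 (v : Fin 2 → MvPolynomial (Fin 3) Ω →ₗ[Ω] Q) {e : ℕ}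
    (ω : Q [⋀^(Fin e ⊕ Fin e)]→ₗ[Ω] Ω) (A : Fin e → MvPolynomial (Fin 3) Ω) (s : Fin e) :
    MvPolynomial (Fin 3) Ω →ₗ[Ω] MvPolynomial (Fin 3) Ω →ₗ[Ω] Ω :=
  LinearMap.mk₂ Ω (fun B B' => ω (Function.update (Function.update (wv v A) (Sum.inl s) (v 0 B))
      (Sum.inr s) (v 1 B')))
    (fun B1 B2 B' => by
      rw [map_add]
      simp only [Function.update_comm (show (Sum.inl s : Fin e ⊕ Fin e) ≠ Sum.inr s by simp)]
      rw [AlternatingMap.map_update_add])
    (fun a B B' => by
      rw [map_smul]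
      simp only [Function.update_comm (show (Sum.inl s : Fin e ⊕ Fin e) ≠ Sum.inr s by simp)]
      rw [AlternatingMap.map_update_smul])
    (fun B B1 B2 => by rw [map_add, AlternatingMap.map_update_add])
    (fun a B B' => by rw [map_smul, AlternatingMap.map_update_smul])

theorem b3_self (v : Fin 2 → MvPolynomial (Fin 3) Ω →ₗ[Ω] Q) {e : ℕ}
    (ω : Q [⋀^(Fin e ⊕ Fin e)]→ₗ[Ω] Ω) (A : Fin e → MvPolynomial (Fin 3) Ω) (s : Fin e)
    (B : MvPolynomial (Fin 3) Ω) :
    ω (wv v (Function.update A s B)) = b3 v ω A s B B := by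
  rw [wv_update]
  rfl

theorem exists_int [CharZero Ω] (v : Fin 2 → MvPolynomial (Fin 3) Ω →ₗ[Ω] Q) {e : ℕ}
    (ω : Q [⋀^(Fin e ⊕ Fin e)]→ₗ[Ω] Ω) (A : Fin e → MvPolynomial (Fin 3) Ω)
    (hA : ∀ j, (A j).IsHomogeneous (3 * e + 1)) (h : ω (wv v A) ≠ 0) :
    ∃ A' : Fin e → MvPolynomial (Fin 3) Ω, (∀ j, I3 e (A' j)) ∧ ω (wv v A') ≠ 0 := by
  classical
  have key : ∀ T : Finset (Fin e), ∃ A : Fin e → MvPolynomial (Fin 3) Ω,
      (∀ j, (A j).IsHomogeneous (3 * e + 1)) ∧ (∀ j ∈ T, I3 e (A j)) ∧ ω (wv v A) ≠ 0 := by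
    intro T
    induction T using Finset.induction_on with
    | empty => exact ⟨A, hA, by simp, h⟩
    | insert s T hs ih =>
      obtain ⟨A', hA', hT, hne⟩ := ih
      have h1 : ∃ I I' : {I : Fin 3 →₀ ℕ // I.degree = 3 * e + 1},
          b3 v ω A' s (monomial I.1 1 + monomial I'.1 1) (monomial I.1 1 + monomial I'.1 1) ≠ 0 := by
        by_contra hcon
        push Not at hcon
        apply hne
        have h2 := b3_self v ω A' s (A' s)
        rw [Function.update_eq_self] at h2
        rw [h2]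
        exact bil_zero (b3 v ω A' s) (fun I : {I : Fin 3 →₀ ℕ // I.degree = 3 * e + 1} =>
          (monomial I.1 1 : MvPolynomial (Fin 3) Ω)) hcon (mon_span (hA' s))
      obtain ⟨I, I', h2⟩ := h1
      have h3 : I3 e (monomial I.1 1 + monomial I'.1 1 : MvPolynomial (Fin 3) Ω) :=
        I3_add (I3_mon I.2) (I3_mon I'.2)
      refine ⟨Function.update A' s (monomial I.1 1 + monomial I'.1 1), ?_, ?_, by rwa [b3_self]⟩
      · intro j
        by_cases hj : j = s
        · subst hj
          rw [Function.update_self]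
          exact h3.1
        · rw [Function.update_of_ne hj]
          exact hA' j
      · intro j hj
        by_cases hj' : j = s
        · subst hj'
          rw [Function.update_self]
          exact h3
        · rw [Function.update_of_ne hj']
          exact hT j ((Finset.mem_insert.1 hj).resolve_left hj')
  obtain ⟨A', -, hT, hne⟩ := key Finset.univ
  exact ⟨A', fun j => hT j (Finset.mem_univ j), hne⟩

theorem IT_rename {n e : ℕ} {t : Fin 3 → Fin (n + 1)} (ht : Function.Injective t)
    {A : MvPolynomial (Fin 3) Ω} (hA : I3 e A) :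
    IT (fun _ : Fin 1 => 3 * e + 2) (fun _ => rename t A) := by
  constructor
  · intro m I hI
    have h1 := (hA.1.rename_isHomogeneous (f := t)) hI
    have h2 : I.degree = 3 * e + 1 := by
      rw [Finsupp.degree_eq_weight_one]
      exact h1
    change I.degree + 1 = 3 * e + 2
    omega
  · intro m I
    by_cases h : ∃ J : Fin 3 →₀ ℕ, J.mapDomain t = I
    · obtain ⟨J, rfl⟩ := h
      rw [coeff_rename_mapDomain t ht]
      exact hA.2 J
    · refine ⟨0, ?_⟩
      rw [coeff_rename_eq_zero, Int.cast_zero]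
      intro u hu
      exact absurd ⟨u, hu⟩ h

end int

/-! ### the maps -/

section maps

variable {Ω : Type} [Field Ω] {n : ℕ} {e : ℕ} (D : DSys Ω n 1 fun _ => 3 * e + 2)
  (x : Fin (n + 1) → Ω) {j0 : Fin (n + 1)} (t : Fin 3 → Fin (n + 1))
  (P : Fin 3 → Fin (n + 1) → Ω)

/-- the linear forms of the plane -/
noncomputable def lt (i : Fin 2) : MvPolynomial (Fin (n + 1)) Ω :=
  X (t i.succ) - C (x (t i.succ)) * X (t 0)

/-- `f ↦ V(l_i f)` -/
noncomputable def vv (i : Fin 2) : MvPolynomial (Fin 3) Ω →ₗ[Ω] (Fin (n + 1) → Ω) :=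
  (D.V x 0).comp ((LinearMap.mulLeft Ω (lt x t i)).comp
    ((rename t).toLinearMap.comp (homogeneousComponent (3 * e + 1))))

theorem vv_apply (i : Fin 2) (f : MvPolynomial (Fin 3) Ω) :
    vv D x t i f = D.V x 0 (lt x t i * rename t (homogeneousComponent (3 * e + 1) f)) := rfl

theorem vv_hom (i : Fin 2) {f : MvPolynomial (Fin 3) Ω} (hf : f.IsHomogeneous (3 * e + 1)) :
    vv D x t i f = D.V x 0 (lt x t i * rename t f) := by
  rw [vv_apply, homogeneousComponent_eq_self hf]

theorem hom_lt (i : Fin 2) : (lt x t i).IsHomogeneous 1 := hom_lin _ _ _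

theorem eval_lt (ht : x (t 0) = 1) (i : Fin 2) : eval x (lt x t i) = 0 := by
  unfold lt
  rw [map_sub, map_mul, eval_X, eval_X, eval_C, ht, mul_one, sub_self]

theorem grad_vv (h0 : ∀ m, eval x (D.F m) = 0) (ht : x (t 0) = 1) (i : Fin 2)
    (f : MvPolynomial (Fin 3) Ω) (m : Fin 1) :
    ∑ p, eval x (pderiv p (D.F m)) * vv D x t i f p = 0 := by
  have h1 : (lt x t i * rename t (homogeneousComponent (3 * e + 1) f)).IsHomogeneous
      (3 * e + 2) := by
    have h2 := (hom_lt x t i).mul ((homogeneousComponent_isHomogeneous (3 * e + 1)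
      f).rename_isHomogeneous (f := t))
    rwa [show 1 + (3 * e + 1) = 3 * e + 2 by omega] at h2
  have h3 := Pool.Agent.Gen.H12.reln Ω n 1 (fun _ => 3 * e + 2) D x h0 0 m _ h1
  rw [if_pos (Subsingleton.elim _ _), map_mul (eval x), eval_lt x t ht, zero_mul, neg_zero] at h3
  exact h3

end maps

theorem pas : PasStatement := by
  intro hO Ω _ _ k e D x j0 ε t P he hE hP
  classical
  obtain ⟨Q, hQdim, hQmem, ω, hω⟩ := hO Ω (2 * e + 1) 1 e (fun _ => 3 * e + 2) D x j0 hE.hj0
    hE.h0 rfl ε
  have ht0 : x (t 0) = 1 := by rw [hP.t0, hE.hj0]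
  have hvQ : ∀ i f, vv D x t i f ∈ Q := by
    intro i f
    rw [hQmem]
    refine ⟨V_j0 D x hE.hj0 _, fun m => grad_vv D x t hE.h0 ht0 i f m⟩
  have van : ∀ A : MvPolynomial (Fin (2 * e + 1 + 1)) Ω, A.IsHomogeneous (3 * e + 1) → ∀ f,
      D.V x 0 (A * (X f - ∑ i, C (P i f) * X (t i))) = 0 := by
    intro A hA f
    have h1 := hP.van (fun _ => A) (by
      intro m I hI
      have h2 := hA hI
      have h3 : I.degree = 3 * e + 1 := by
        rw [Finsupp.degree_eq_weight_one]
        exact h2
      change I.degree + 1 = 3 * e + 2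
      omega) f
    rw [VT1] at h1
    exact h1
  let v : Fin 2 → MvPolynomial (Fin 3) Ω →ₗ[Ω] Q := fun i =>
    (vv D x t i).codRestrict Q (hvQ i)
  have hv : ∀ i f, (v i f : Fin (2 * e + 1 + 1) → Ω) = vv D x t i f := fun i f => rfl
  have hlf0 : lt x t 0 = lf x j0 (t 1) := by
    unfold lt lf
    rw [hP.t0]
    rfl
  have hlf1 : lt x t 1 = lf x j0 (t 2) := by
    unfold lt lf
    rw [hP.t0]
    rfl
  -- the determinant of a tuple
  have hTT : ∀ A : Fin e → MvPolynomial (Fin 3) Ω, (∀ j, (A j).IsHomogeneous (3 * e + 1)) →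
      ω (wv v A) = TT D x j0 ε (fun j _ => rename t (A j)) (fun _ => t 1) (fun _ => t 2) := by
    intro A hA
    rw [hω]
    unfold TT
    have h1 : (Sum.elim (fun _ : Unit => x) fun s => ((wv v A s : Q) :
        Fin (2 * e + 1 + 1) → Ω)) =
        colE D x j0 (fun j _ => rename t (A j)) (fun _ => t 1) (fun _ => t 2) := by
      funext s
      rcases s with (s | (j | j))
      · rfl
      · change vv D x t 0 (A j) = VT D x (mulT (fun _ => rename t (A j)) (lf x j0 (t 1)))
        rw [vv_hom D x t 0 (hA j), VT1, hlf0, mul_comm (lf x j0 (t 1)) (rename t (A j))]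
        rfl
      · change vv D x t 1 (A j) = VT D x (mulT (fun _ => rename t (A j)) (lf x j0 (t 2)))
        rw [vv_hom D x t 1 (hA j), VT1, hlf1, mul_comm (lf x j0 (t 2)) (rename t (A j))]
        rfl
    rw [h1]
  refine ⟨Q, v, ω, ⟨hE.kalg, ht0, hP.xk, hQdim, ?_, ?_, ?_⟩, ?_, ?_⟩
  · -- comm
    intro B
    apply Subtype.ext
    rw [hv, hv, vv_apply, vv_apply, hc_mul _ (hom_lin _ _ _), hc_mul _ (hom_lin _ _ _),
      map_mul (rename t), map_mul (rename t)]
    congr 1
    have e1 : rename t (X 2 - C (x (t 2)) * X 0 : MvPolynomial (Fin 3) Ω) = lt x t 1 := by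
      rw [map_sub, map_mul, rename_X, rename_X, rename_C]
      rfl
    have e2 : rename t (X 1 - C (x (t 1)) * X 0 : MvPolynomial (Fin 3) Ω) = lt x t 0 := by
      rw [map_sub, map_mul, rename_X, rename_X, rename_C]
      rfl
    rw [e1, e2]
    ring
  · -- rat
    intro A hA
    rw [hTT A fun j => (hA j).1]
    exact hP.rat _ fun j => IT_rename hP.inj (hA j)
  · -- nz
    obtain ⟨A, hA, hne⟩ := hP.nz
    have hAh : ∀ j, (A j 0).IsHomogeneous (3 * e + 1) := by
      intro j I hI
      have h1 := (hA j).1 0 I hI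
      change I.degree + 1 = 3 * e + 2 at h1
      have h2 : I.degree = 3 * e + 1 := by omega
      rw [Finsupp.degree_eq_weight_one] at h2
      exact h2
    refine exists_int v ω (fun j => resP P (A j 0)) (fun j => hom_resP P (hAh j)) ?_
    rw [hTT _ fun j => hom_resP P (hAh j)]
    have h1 : colE D x j0 (fun j _ => rename t (resP P (A j 0))) (fun _ => t 1) (fun _ => t 2) =
        colE D x j0 A (fun _ => t 1) (fun _ => t 2) := by
      have h2 : ∀ (i : Fin (2 * e + 1 + 1)) j,
          VT D x (mulT (fun _ => rename t (resP P (A j 0))) (lf x j0 i)) =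
          VT D x (mulT (A j) (lf x j0 i)) := by
        intro i j
        rw [VT1, VT1]
        change D.V x 0 (rename t (resP P (A j 0)) * lf x j0 i) = D.V x 0 (A j 0 * lf x j0 i)
        rw [mul_comm (rename t (resP P (A j 0))) (lf x j0 i), mul_comm (A j 0) (lf x j0 i)]
        exact (V_rho D x t P (3 * e + 1) van (hom_lf x j0 i) (hAh j) rfl).symm
      funext s
      rcases s with (s | (j | j))
      · rfl
      · exact h2 _ _
      · exact h2 _ _
    unfold TT
    rw [h1]
    exact hne
  · -- the values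
    intro i f hf
    rw [hv, vv_hom D x t i hf]
    rfl
  · -- the partial derivatives
    intro i p
    have hF : (pderiv p (D.F 0)).IsHomogeneous (3 * e + 1) := (D.hom 0).pderiv
    apply Subtype.ext
    rw [hv, vv_hom D x t i (hom_resP P hF),
      ← V_rho D x t P (3 * e + 1) van (hom_lt x t i) hF rfl]
    have h1 := hE.w0 p (t i.succ)
    have h2 := hE.w0 p (t 0)
    have h3 : D.V x 0 (lt x t i * pderiv p (D.F 0)) =
        WT D x p (t i.succ) - x (t i.succ) • WT D x p (t 0) := by
      unfold WT lt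
      rw [VT1, VT1, ht0, one_smul, smul_add, sub_mul, map_sub, mul_assoc, ← smul_eq_C_mul,
        map_smul]
      abel
    have h4 : D.V x 0 (lt x t i * pderiv p (D.F 0)) ∈ Submodule.span Ω {x} := by
      rw [h3]
      exact Submodule.sub_mem _ h1 (Submodule.smul_mem _ _ h2)
    rw [Submodule.mem_span_singleton] at h4
    obtain ⟨a, ha⟩ := h4
    have h5 : a = 0 := by
      have h6 := congrFun ha j0
      rw [V_j0 D x hE.hj0, Pi.smul_apply, hE.hj0, smul_eq_mul, mul_one] at h6
      exact h6
    rw [← ha, h5, zero_smul]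
    rfl

end Pool.Agent.Edge.H60
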