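import Pool.Agent.Lib.MP_c7af3c_ag.EDGE.H53.IfaceC
import Pool.Agent.Lib.MP_c7af3c_ag.EDGE.H60.Pas
import Pool.Agent.Lib.MP_c7af3c_ag.EDGE.H75.NratCore

/-!
# MP_c7af3c_ag, project EDGE, all c: from the plane to the situation of `block` (helper60)
-/

set_option autoImplicit false
set_option linter.unusedSectionVars false

namespace Pool.Agent.Edge.H60

open MvPolynomial WithZero Pool.Agent.Gen Pool.Agent.Sharp Pool.Agent.Lines.H75 LangT1
open Pool.Agent.Edge.H19 Pool.Agent.Edge.H53

/-! ### the substitution, for any linear map -/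

section rho

variable {Ω : Type} [Field Ω] {n : ℕ} {M : Type} [AddCommGroup M] [Module Ω M]
  (L : MvPolynomial (Fin (n + 1)) Ω →ₗ[Ω] M) (t : Fin 3 → Fin (n + 1))
  (P : Fin 3 → Fin (n + 1) → Ω) (r' : ℕ)
  (van : ∀ A : MvPolynomial (Fin (n + 1)) Ω, A.IsHomogeneous r' → ∀ f,
    L (A * (X f - ∑ i, C (P i f) * X (t i))) = 0)

include van in
theorem L_rho_mon (I : Fin (n + 1) →₀ ℕ) : ∀ (s : ℕ) (B : MvPolynomial (Fin (n + 1)) Ω),
    B.IsHomogeneous s → I.degree + s = r' + 1 →
    L (B * monomial I 1) = L (B * rho t P (monomial I 1)) := by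
  have hX : ∀ a, ∀ (s : ℕ) (B : MvPolynomial (Fin (n + 1)) Ω),
      B.IsHomogeneous s → 1 + s = r' + 1 →
      L (B * X a) = L (B * rho t P (X a)) := by
    intro a s B hB hs
    have h1 := van B (by rwa [show r' = s by omega]) a
    rw [mul_sub, map_sub, sub_eq_zero] at h1
    rw [h1, rho_X]
  have hadd : ∀ I J : Fin (n + 1) →₀ ℕ,
      (∀ (s : ℕ) (B : MvPolynomial (Fin (n + 1)) Ω), B.IsHomogeneous s →
        I.degree + s = r' + 1 →
        L (B * monomial I 1) = L (B * rho t P (monomial I 1))) →
      (∀ (s : ℕ) (B : MvPolynomial (Fin (n + 1)) Ω), B.IsHomogeneous s →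
        J.degree + s = r' + 1 →
        L (B * monomial J 1) = L (B * rho t P (monomial J 1))) →
      ∀ (s : ℕ) (B : MvPolynomial (Fin (n + 1)) Ω), B.IsHomogeneous s →
        (I + J).degree + s = r' + 1 →
        L (B * monomial (I + J) 1) = L (B * rho t P (monomial (I + J) 1)) := by
    intro I J hI hJ s B hB hs
    have hIJ : (monomial (I + J) 1 : MvPolynomial (Fin (n + 1)) Ω) =
        monomial I 1 * monomial J 1 := by rw [monomial_mul, one_mul]
    rw [map_add] at hs
    have hmI : (monomial I 1 : MvPolynomial (Fin (n + 1)) Ω).IsHomogeneous I.degree :=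
      isHomogeneous_monomial _ rfl
    have hmJ : (monomial J 1 : MvPolynomial (Fin (n + 1)) Ω).IsHomogeneous J.degree :=
      isHomogeneous_monomial _ rfl
    rw [hIJ, ← mul_assoc, hJ (s + I.degree) (B * monomial I 1) (hB.mul hmI) (by omega),
      map_mul (rho t P)]
    have e1 : B * monomial I 1 * rho t P (monomial J 1) =
        B * rho t P (monomial J 1) * monomial I 1 := by ring
    have e2 : B * (rho t P (monomial I 1) * rho t P (monomial J 1)) =
        B * rho t P (monomial J 1) * rho t P (monomial I 1) := by ring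
    rw [e1, e2]
    exact hI (s + J.degree) _ (hB.mul (hom_rho t P hmJ)) (by omega)
  induction I using Finsupp.induction_linear with
  | zero =>
    intro s B _ _
    have h : (monomial (0 : Fin (n + 1) →₀ ℕ) (1 : Ω)) = 1 := rfl
    rw [h, map_one]
  | add I J hI hJ => exact hadd I J hI hJ
  | single a b =>
    induction b with
    | zero =>
      intro s B _ _
      rw [Finsupp.single_zero]
      have h : (monomial (0 : Fin (n + 1) →₀ ℕ) (1 : Ω)) = 1 := rfl
      rw [h, map_one]
    | succ b ih =>
      rw [Finsupp.single_add]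
      refine hadd _ _ ih ?_
      intro s B hB hs
      rw [Finsupp.degree_single] at hs
      exact hX a s B hB hs

include van in
theorem L_rho {s s' : ℕ} {B f : MvPolynomial (Fin (n + 1)) Ω} (hB : B.IsHomogeneous s)
    (hf : f.IsHomogeneous s') (hs : s' + s = r' + 1) :
    L (B * f) = L (B * rename t (resP P f)) := by
  rw [← rho_apply]
  have h1 : f = ∑ I ∈ f.support, coeff I f • (monomial I 1 : MvPolynomial (Fin (n + 1)) Ω) := by
    conv_lhs => rw [f.as_sum]
    refine Finset.sum_congr rfl fun I _ => ?_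
    rw [smul_monomial, smul_eq_mul, mul_one]
  rw [h1, map_sum, Finset.mul_sum, Finset.mul_sum, map_sum, map_sum]
  refine Finset.sum_congr rfl fun I hI => ?_
  have hI' : I.degree = s' := by
    have h2 := hf (mem_support_iff.1 hI)
    rw [Finsupp.degree_eq_weight_one]
    exact h2
  rw [map_smul, mul_smul_comm, mul_smul_comm, map_smul, map_smul,
    L_rho_mon L t P r' van I s B hB (by omega)]

end rho

/-! ### coefficients in `k` -/

section lift

variable {Ω : Type} [Field Ω] {k : Subfield Ω} {n : ℕ}

theorem poly_lift {σ : Type} (F : MvPolynomial σ Ω) (hF : ∀ I, coeff I F ∈ k) :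
    ∃ q : MvPolynomial σ k, MvPolynomial.map (algebraMap k Ω) q = F := by
  refine ⟨∑ I ∈ F.support, monomial I ⟨coeff I F, hF I⟩, ?_⟩
  rw [map_sum]
  conv_rhs => rw [F.as_sum]
  refine Finset.sum_congr rfl fun I _ => ?_
  rw [map_monomial]
  rfl

theorem resP_lift (P : Fin 3 → Fin (n + 1) → Ω) (hP : ∀ i f, P i f ∈ k)
    (F : MvPolynomial (Fin (n + 1)) Ω) (hF : ∀ I, coeff I F ∈ k) :
    ∃ q : MvPolynomial (Fin 3) k, MvPolynomial.map (algebraMap k Ω) q = resP P F := by
  obtain ⟨F', rfl⟩ := poly_lift F hF
  refine ⟨bind₁ (fun f => ∑ i, C (⟨P i f, hP i f⟩ : k) * X i) F', ?_⟩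
  rw [map_bind₁]
  change _ = bind₁ (fun f => ∑ i, C (P i f) * X i) _
  congr 1
  congr 1
  funext f
  rw [map_sum]
  refine Finset.sum_congr rfl fun i _ => ?_
  rw [map_mul, map_C, map_X]
  rfl

theorem hom_of_map {σ : Type} {q : MvPolynomial σ k} {s : ℕ}
    (h : (MvPolynomial.map (algebraMap k Ω) q).IsHomogeneous s) : q.IsHomogeneous s := by
  intro I hI
  refine h ?_
  rw [coeff_map]
  exact (map_ne_zero _).2 hI

end lift

/-! ### bases from determinants -/

section det

variable {L : Type} [Field L] {n : ℕ} {κ : Type} [Fintype κ] [DecidableEq κ] [Nonempty κ]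

theorem basis_of_det (ε : κ ≃ Fin (n + 1)) (K : κ → Fin (n + 1) → L) (hK : detA ε K ≠ 0) :
    ∃ c : κ → (Fin (n + 1) → L) →ₗ[L] L, (∀ u, u = ∑ a, c a u • K a) ∧
      (∀ a b, c a (K b) = if a = b then 1 else 0) ∧
      ∀ s t : κ, s ≠ t → ∀ u u', detA ε (Function.update (Function.update K s u) t u') =
        detA ε K * (c s u * c t u' - c t u * c s u') := by
  have hd : Module.finrank L (Fin (n + 1) → L) = Fintype.card κ := by
    rw [Module.finrank_fin_fun, Fintype.card_congr ε, Fintype.card_fin]
  obtain ⟨c, hc, hc2⟩ := Pool.Agent.Edge75.vol_coord (detA ε) hd K hK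
  refine ⟨c, hc, fun a b => ?_, hc2⟩
  have hli : LinearIndependent L K := by
    by_contra hcon
    exact hK ((detA ε).map_linearDependent _ hcon)
  have h1 := hc (K b)
  have h2 : ∑ a, (c a (K b) - if a = b then 1 else 0) • K a = 0 := by
    simp only [sub_smul, Finset.sum_sub_distrib]
    rw [← h1]
    simp
  have h3 := Fintype.linearIndependent_iff.1 hli _ h2 a
  exact sub_eq_zero.1 h3

end det

/-- a quadratic form with values in `k` -/
theorem quad_k {L : Type} [Field L] [CharZero L] (k : Subfield L) {M ι : Type} [AddCommGroup M]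
    [Module L M] (b : M →ₗ[L] M →ₗ[L] L) (u : ι → M)
    (h : ∀ a a', b (u a + u a') (u a + u a') ∈ k) (s : Finset ι) (r : ι → L)
    (hr : ∀ a, r a ∈ k) : b (∑ a ∈ s, r a • u a) (∑ a ∈ s, r a • u a) ∈ k := by
  have h20 : (2 : L) ∈ k := by
    have := k.add_mem k.one_mem k.one_mem
    rwa [one_add_one_eq_two] at this
  have h2 : (2 : L) ≠ 0 := two_ne_zero
  have h0 : ∀ a, b (u a) (u a) ∈ k := by
    intro a
    have h1 := h a a
    simp only [map_add, LinearMap.add_apply] at h1
    have e : b (u a) (u a) = (b (u a) (u a) + b (u a) (u a) +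
        (b (u a) (u a) + b (u a) (u a))) / 2 / 2 := by
      field_simp
      ring
    rw [e]
    exact k.div_mem (k.div_mem h1 h20) h20
  have h1 : ∀ a a', b (u a) (u a') + b (u a') (u a) ∈ k := by
    intro a a'
    have h1 := h a a'
    simp only [map_add, LinearMap.add_apply] at h1
    have e : b (u a) (u a') + b (u a') (u a) = (b (u a) (u a) + b (u a') (u a) +
        (b (u a) (u a') + b (u a') (u a'))) - b (u a) (u a) - b (u a') (u a') := by ring
    rw [e]
    exact k.sub_mem (k.sub_mem h1 (h0 a)) (h0 a')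
  have e1 : b (∑ a ∈ s, r a • u a) (∑ a ∈ s, r a • u a) =
      ∑ a ∈ s, ∑ a' ∈ s, r a * r a' * b (u a) (u a') := by
    have e0 : b (∑ a ∈ s, r a • u a) = ∑ a ∈ s, r a • b (u a) := by
      rw [map_sum]
      exact Finset.sum_congr rfl fun a _ => by rw [map_smul]
    rw [e0, LinearMap.sum_apply]
    refine Finset.sum_congr rfl fun a _ => ?_
    rw [LinearMap.smul_apply, map_sum, Finset.smul_sum]
    refine Finset.sum_congr rfl fun a' _ => ?_
    rw [map_smul, smul_eq_mul, smul_eq_mul, mul_assoc]
  have e2 : b (∑ a ∈ s, r a • u a) (∑ a ∈ s, r a • u a) =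
      (∑ a ∈ s, ∑ a' ∈ s, r a * r a' * (b (u a) (u a') + b (u a') (u a))) / 2 := by
    rw [eq_div_iff h2]
    have e3 : ∑ a ∈ s, ∑ a' ∈ s, r a * r a' * b (u a') (u a) =
        ∑ a ∈ s, ∑ a' ∈ s, r a * r a' * b (u a) (u a') := by
      rw [Finset.sum_comm]
      refine Finset.sum_congr rfl fun a _ => Finset.sum_congr rfl fun a' _ => ?_
      ring
    simp only [mul_add, Finset.sum_add_distrib]
    rw [e3, e1]
    ring
  rw [e2]
  exact k.div_mem (sum_mem fun a _ => sum_mem fun a' _ =>
    k.mul_mem (k.mul_mem (hr a) (hr a')) (h1 a a')) h20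

/-! ### the situation -/

section sit

variable {Ω : Type} [Field Ω] {n c : ℕ} {d : Fin c → ℕ} (D : DSys Ω n c d)
  (x : Fin (n + 1) → Ω) (t : Fin 3 → Fin (n + 1)) (P : Fin 3 → Fin (n + 1) → Ω)

/-- renaming of a tuple -/
noncomputable def renT : (Fin c → MvPolynomial (Fin 3) Ω) →ₗ[Ω] TP Ω n c :=
  LinearMap.pi fun m => (rename t).toLinearMap ∘ₗ LinearMap.proj m

theorem renT_apply (G : Fin c → MvPolynomial (Fin 3) Ω) :
    renT t G = fun m => rename t (G m) := rfl

/-- `G ↦ V(G)` for tuples in three variables -/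
noncomputable def WW : (Fin c → MvPolynomial (Fin 3) Ω) →ₗ[Ω] (Fin (n + 1) → Ω) :=
  (VT D x).comp (renT t)

theorem WW_apply (G : Fin c → MvPolynomial (Fin 3) Ω) :
    WW D x t G = VT D x fun m => rename t (G m) := rfl

theorem eval_resP (hxP : ∀ f, x f = ∑ i, P i f * x (t i)) (F : MvPolynomial (Fin (n + 1)) Ω) :
    eval (fun i => x (t i)) (resP P F) = eval x F := by
  have h : (aeval (fun i => x (t i)) : MvPolynomial (Fin 3) Ω →ₐ[Ω] Ω).comp (resP P) =
      aeval x := by
    refine algHom_ext fun f => ?_
    unfold resP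
    rw [AlgHom.comp_apply, aeval_X, map_sum, aeval_X]
    rw [hxP f]
    refine Finset.sum_congr rfl fun i _ => ?_
    rw [map_mul, aeval_X, ← algebraMap_eq, AlgHom.commutes]
    rfl
  have h2 := congrArg (fun φ : MvPolynomial (Fin (n + 1)) Ω →ₐ[Ω] Ω => φ F) h
  exact h2

theorem van_comp (van : ∀ A : TP Ω n c, Adm d A → ∀ f,
    VT D x (mulT A (X f - ∑ i, C (P i f) * X (t i))) = 0) (m : Fin c)
    (A : MvPolynomial (Fin (n + 1)) Ω) (r' : ℕ) (hA : A.IsHomogeneous r') (hr : d m = r' + 1)
    (f : Fin (n + 1)) : D.V x m (A * (X f - ∑ i, C (P i f) * X (t i))) = 0 := by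
  classical
  have h1 := van (Pi.single m A) (by
    intro m' I hI
    by_cases h : m' = m
    · subst h
      rw [Pi.single_eq_same] at hI
      have h2 := hA hI
      have h3 : I.degree = r' := by
        rw [Finsupp.degree_eq_weight_one]
        exact h2
      omega
    · rw [Pi.single_eq_of_ne h, coeff_zero] at hI
      exact absurd rfl hI) f
  rw [VT_apply, Finset.sum_eq_single m] at h1
  · unfold mulT at h1
    rw [Pi.single_eq_same] at h1
    exact h1
  · intro m' _ hm'
    unfold mulT
    rw [Pi.single_eq_of_ne hm', zero_mul, map_zero]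
  · intro h; exact absurd (Finset.mem_univ _) h

theorem V_rhoc (van : ∀ A : TP Ω n c, Adm d A → ∀ f,
    VT D x (mulT A (X f - ∑ i, C (P i f) * X (t i))) = 0) (m : Fin c) (hd : 1 ≤ d m)
    {B f : MvPolynomial (Fin (n + 1)) Ω} (hB : B.IsHomogeneous 1)
    (hf : f.IsHomogeneous (d m - 1)) :
    D.V x m (B * f) = D.V x m (B * rename t (resP P f)) :=
  L_rho (D.V x m) t P (d m - 1)
    (fun A hA f => van_comp D x t P van m A (d m - 1) hA (by omega) f) hB hf rfl

theorem VT_rhoc (van : ∀ A : TP Ω n c, Adm d A → ∀ f,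
    VT D x (mulT A (X f - ∑ i, C (P i f) * X (t i))) = 0) (hd : ∀ m, 1 ≤ d m)
    {B : MvPolynomial (Fin (n + 1)) Ω} {A : TP Ω n c} (hB : B.IsHomogeneous 1)
    (hA : ∀ m, (A m).IsHomogeneous (d m - 1)) :
    VT D x (fun m => B * rename t (resP P (A m))) = VT D x (fun m => B * A m) := by
  rw [VT_apply, VT_apply]
  exact Finset.sum_congr rfl fun m _ => (V_rhoc D x t P van m (hd m) hB (hA m)).symm

theorem rename_lin (m : Fin 3 → Ω) :
    rename t (lin m) = (∑ i, C (m i) * X (t i) : MvPolynomial (Fin (n + 1)) Ω) := by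
  unfold lin
  rw [map_sum]
  refine Finset.sum_congr rfl fun i _ => ?_
  rw [map_mul, rename_C, rename_X]

theorem hom_rename_lin (m : Fin 3 → Ω) :
    (rename t (lin m) : MvPolynomial (Fin (n + 1)) Ω).IsHomogeneous 1 :=
  (lin_homogeneous m).rename_isHomogeneous

/-- the relation `w = 0` on the plane -/
theorem hE_plane (van : ∀ A : TP Ω n c, Adm d A → ∀ f,
    VT D x (mulT A (X f - ∑ i, C (P i f) * X (t i))) = 0) (hd : ∀ m, 1 ≤ d m)
    (w0 : W0 D x) (m : Fin 3 → Ω) (u : Fin (n + 1) → Ω) :
    VT D x (fun a => rename t (lin m) * rename t (∑ p, C (u p) * resP P (pderiv p (D.F a)))) +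
      (∑ i, m i * x (t i)) • u ∈ Submodule.span Ω {x} := by
  have e1 : (fun a => rename t (lin m) * rename t (∑ p, C (u p) * resP P (pderiv p (D.F a))) :
      TP Ω n c) = fun a => rename t (lin m) * rename t (resP P (∑ p, C (u p) *
        pderiv p (D.F a))) := by
    funext a
    congr 2
    rw [map_sum]
    refine Finset.sum_congr rfl fun p _ => ?_
    rw [map_mul]
    congr 1
    exact ((resP P).commutes (u p)).symm
  have hF : ∀ a, (∑ p, C (u p) * pderiv p (D.F a) :
      MvPolynomial (Fin (n + 1)) Ω).IsHomogeneous (d a - 1) := by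
    intro a
    refine IsHomogeneous.sum _ _ _ fun p _ => ?_
    simpa using (isHomogeneous_C (Fin (n + 1)) (u p)).mul ((D.hom a).pderiv (i := p))
  rw [e1, VT_rhoc D x t P van hd (A := fun a => ∑ p, C (u p) * pderiv p (D.F a))
    (hom_rename_lin t m) hF]
  have e2 : (fun a => rename t (lin m) * ∑ p, C (u p) * pderiv p (D.F a) : TP Ω n c) =
      ∑ i, ∑ p, (m i * u p) • fun a => X (t i) * pderiv p (D.F a) := by
    funext a
    rw [Finset.sum_apply, rename_lin, Finset.sum_mul]
    refine Finset.sum_congr rfl fun i _ => ?_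
    rw [Finset.sum_apply, Finset.mul_sum]
    refine Finset.sum_congr rfl fun p _ => ?_
    rw [Pi.smul_apply, smul_eq_C_mul, C_mul]
    ring
  have e3 : (∑ i, m i * x (t i)) • u =
      ∑ i, ∑ p, (m i * u p) • (x (t i) • (Pi.single p 1 : Fin (n + 1) → Ω)) := by
    rw [Finset.sum_smul]
    refine Finset.sum_congr rfl fun i _ => ?_
    funext q
    rw [Finset.sum_apply, Finset.sum_eq_single q]
    · simp only [Pi.smul_apply, Pi.single_eq_same, smul_eq_mul]
      ring
    · intro b _ hb
      simp only [Pi.smul_apply, Pi.single_eq_of_ne (Ne.symm hb), smul_eq_mul, mul_zero]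
    · intro h; exact absurd (Finset.mem_univ _) h
  have e4 : VT D x (fun a => rename t (lin m) * ∑ p, C (u p) * pderiv p (D.F a)) +
      (∑ i, m i * x (t i)) • u = ∑ i, ∑ p, (m i * u p) • WT D x p (t i) := by
    rw [e2, e3, map_sum, ← Finset.sum_add_distrib]
    refine Finset.sum_congr rfl fun i _ => ?_
    rw [map_sum, ← Finset.sum_add_distrib]
    refine Finset.sum_congr rfl fun p _ => ?_
    rw [map_smul, ← smul_add]
    congr 1
    exact add_comm _ _
  rw [e4]
  exact Submodule.sum_mem _ fun i _ => Submodule.sum_mem _ fun p _ =>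
    Submodule.smul_mem _ _ (w0 p (t i))

end sit

theorem pasc : PascStatement := by
  intro _ Ω _ _ k n c e d D x j0 ε t P he hn hd hE hP
  classical
  have hxP : ∀ f, x f = ∑ i, P i f * x (t i) := hP.xP
  have ht0 : x (t 0) = 1 := by rw [hP.t0, hE.hj0]
  -- the forms
  have hpd : ∀ p m I, coeff I (pderiv p (D.F m)) ∈ k := by
    intro p m I
    obtain ⟨F', hF'⟩ := poly_lift (k := k) (D.F m) (hE.kF m)
    rw [← hF', pderiv_map, coeff_map]
    exact (coeff I (pderiv p F')).2
  choose f hf using fun p m => resP_lift (k := k) P hP.Pk (pderiv p (D.F m)) (hpd p m)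
  have hfu : ∀ u a, fu f u a = ∑ p, C (u p) * resP P (pderiv p (D.F a)) := by
    intro u a
    unfold fu
    exact Finset.sum_congr rfl fun p _ => by rw [hf]
  have hgrad : ∀ u a, eval (fun i => x (t i)) (fu f u a) =
      ∑ p, eval x (pderiv p (D.F a)) * u p := by
    intro u a
    rw [fu_eval]
    refine Finset.sum_congr rfl fun p _ => ?_
    rw [hf, eval_resP x t P hxP, mul_comm]
  -- the columns
  obtain ⟨A0, hA0, hne⟩ := hP.nz
  set K := colU D x (colE D x j0 A0 (fun _ => t 1) (fun _ => t 2)) j0 with hKdef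
  have hTT0 : detA ε K ≠ 0 := by
    rw [← TT_eq]
    exact hne
  obtain ⟨co, hco, hco1, hco2⟩ := basis_of_det ε K hTT0
  have hA0h : ∀ s m, (A0 s m).IsHomogeneous (d m - 1) := by
    intro s m I hI
    have h1 := (hA0 s).1 m I hI
    have h2 : I.degree = d m - 1 := by omega
    rw [Finsupp.degree_eq_weight_one] at h2
    exact h2
  have hK0 : K (Sum.inl (Sum.inl ())) = x := rfl
  have hKu : ∀ m, K (Sum.inr m) = D.V x m (X j0 ^ d m) := fun m => rfl
  let ix : Fin e → Fin 2 → (Unit ⊕ (Fin e ⊕ Fin e)) ⊕ Fin c := fun s j =>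
    if j = 0 then Sum.inl (Sum.inr (Sum.inl s)) else Sum.inl (Sum.inr (Sum.inr s))
  have hix0 : ∀ s, ix s 0 = Sum.inl (Sum.inr (Sum.inl s)) := fun s => rfl
  have hix1 : ∀ s, ix s 1 = Sum.inl (Sum.inr (Sum.inr s)) := fun s => rfl
  have hixne : ∀ s, ix s 0 ≠ ix s 1 := fun s => by rw [hix0, hix1]; simp
  -- the linear forms
  have hkap : ∀ i : Fin 2, rename t (lin (kap (fun i => x (t i)) i)) = lf x j0 (t i.succ) := by
    intro i
    rw [rename_lin, Fin.sum_univ_three]
    unfold lf
    rw [hP.t0]
    fin_cases i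
    · simp [kap, sub_eq_add_neg, add_comm]
    · simp [kap, sub_eq_add_neg, add_comm]
  have hW : ∀ (i : Fin 2) (G : Fin c → MvPolynomial (Fin 3) Ω),
      WW D x t (mulL (kap (fun i => x (t i)) i) G) =
        VL D x (lf x j0 (t i.succ)) (fun m => rename t (G m)) := by
    intro i G
    rw [WW_apply, VL_apply]
    congr 1
    funext m
    rw [mulL_apply, map_mul, hkap, mul_comm]
    rfl
  -- the determinant of a block
  have hblock : ∀ s (B : TP Ω n c),
      (Matrix.of fun i j : Fin 2 => co (ix s j) (VL D x (lf x j0 (t i.succ)) B)).det =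
        TT D x j0 ε (Function.update A0 s B) (fun _ => t 1) (fun _ => t 2) / detA ε K := by
    intro s B
    rw [TT_eq, col_update, eq_div_iff hTT0]
    have h1 := hco2 (ix s 0) (ix s 1) (hixne s) (VL D x (lf x j0 (t 1)) B)
      (VL D x (lf x j0 (t 2)) B)
    rw [hix0, hix1] at h1
    rw [← hKdef, h1, Matrix.det_fin_two]
    simp only [Matrix.of_apply, hix0, hix1]
    change (co _ (VL D x (lf x j0 (t 1)) B) * co _ (VL D x (lf x j0 (t 2)) B) -
      co _ (VL D x (lf x j0 (t 1)) B) * co _ (VL D x (lf x j0 (t 2)) B)) * detA ε K = _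
    ring
  refine ⟨f, WW D x t, fun s j => co (ix s j), ⟨hd, ?_, ?_, ?_, ?_, ?_⟩, hf, ?_, ?_, ?_, ?_⟩
  · -- independence
    rw [Fintype.linearIndependent_iff]
    intro g hg i
    have h1 := hP.xk (fun i => (g i : Ω)) (fun i => (g i).2) (by
      rw [← hg]
      rfl)
    exact Subtype.ext (congrFun h1 i)
  · -- degrees
    intro p m
    refine hom_of_map (Ω := Ω) ?_
    rw [hf]
    exact hom_resP P ((D.hom m).pderiv)
  · -- `w = 0`
    intro m u
    have h1 := hE_plane D x t P hP.van hd hE.w0 m u
    have e1 : WW D x t (mulL m (fu f u)) = VT D x (fun a => rename t (lin m) *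
        rename t (∑ p, C (u p) * resP P (pderiv p (D.F a)))) := by
      rw [WW_apply]
      congr 1
      funext a
      rw [mulL_apply, map_mul, hfu]
    rw [e1]
    exact h1
  · -- the relation (R)
    intro G hG a
    rw [hgrad, WW_apply, grad_VT D x hE.h0 _ (fun m => (hG m).rename_isHomogeneous) a,
      eval_rename]
    rfl
  · -- `x` is tangent
    intro a
    rw [hgrad]
    exact grad_x D x hE.h0 a
  · -- the functionals vanish at `x`
    intro s j
    rw [← hK0, hco1, if_neg]
    fin_cases j
    · exact fun h => by simp [ix] at h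
    · exact fun h => by simp [ix] at h
  · -- the common kernel
    intro u hu hτ
    have h1 := hco u
    rw [Fintype.sum_sum_type, Fintype.sum_sum_type, Fintype.sum_sum_type] at h1
    have h2 : ∑ a, co (Sum.inl (Sum.inr (Sum.inl a))) u • K (Sum.inl (Sum.inr (Sum.inl a))) = 0 :=
      Finset.sum_eq_zero fun a _ => by
        have h9 : co (ix a 0) u = 0 := hτ a 0
        rw [hix0] at h9
        rw [h9, zero_smul]
    have h3 : ∑ a, co (Sum.inl (Sum.inr (Sum.inr a))) u • K (Sum.inl (Sum.inr (Sum.inr a))) = 0 :=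
      Finset.sum_eq_zero fun a _ => by
        have h9 : co (ix a 1) u = 0 := hτ a 1
        rw [hix1] at h9
        rw [h9, zero_smul]
    rw [h2, h3, add_zero, add_zero, Finset.univ_unique, Finset.sum_singleton] at h1
    have h4 : ∀ b, co (Sum.inr b) u = 0 := by
      intro b
      have h5 := hu b
      rw [hgrad, h1] at h5
      simp only [Pi.add_apply, Pi.smul_apply, Finset.sum_apply, smul_eq_mul, mul_add,
        Finset.mul_sum, Finset.sum_add_distrib] at h5
      rw [Finset.sum_comm (s := Finset.univ) (t := Finset.univ)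
        (f := fun p b' => eval x (pderiv p (D.F b)) * (co (Sum.inr b') u * K (Sum.inr b') p))]
        at h5
      have h6 : ∑ p, eval x (pderiv p (D.F b)) *
          (co (Sum.inl (Sum.inl (default : Unit))) u * K (Sum.inl (Sum.inl default)) p) = 0 := by
        have e1 : ∀ p, eval x (pderiv p (D.F b)) *
            (co (Sum.inl (Sum.inl (default : Unit))) u * K (Sum.inl (Sum.inl default)) p) =
            co (Sum.inl (Sum.inl (default : Unit))) u * (eval x (pderiv p (D.F b)) * x p) := by
          intro p
          change _ * (_ * x p) = _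
          ring
        rw [Finset.sum_congr rfl fun p _ => e1 p, ← Finset.mul_sum, grad_x D x hE.h0, mul_zero]
      have h7 : ∀ b', ∑ p, eval x (pderiv p (D.F b)) * (co (Sum.inr b') u * K (Sum.inr b') p) =
          co (Sum.inr b') u * (if b' = b then - x j0 ^ d b' else 0) := by
        intro b'
        rw [← grad_U D x hE.h0 b' b j0, Finset.mul_sum]
        refine Finset.sum_congr rfl fun p _ => ?_
        rw [hKu]
        ring
      rw [h6, Finset.sum_congr rfl fun b' _ => h7 b', zero_add] at h5
      simp only [mul_ite, mul_zero, Finset.sum_ite_eq', Finset.mem_univ, if_true, hE.hj0,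
        one_pow, mul_neg, mul_one, neg_eq_zero] at h5
      exact h5
    have h5 : ∑ b, co (Sum.inr b) u • K (Sum.inr b) = 0 :=
      Finset.sum_eq_zero fun b _ => by rw [h4, zero_smul]
    rw [h5, add_zero] at h1
    rw [Submodule.mem_span_singleton]
    exact ⟨_, h1.symm⟩
  · -- rationality
    intro s A hA
    have e0 : (Matrix.of fun i j : Fin 2 => co (ix s j)
        (WW D x t (mulL (kap (fun i => x (t i)) i) (mp Ω A)))).det =
        TT D x j0 ε (Function.update A0 s (fun m => rename t (mp Ω A m))) (fun _ => t 1)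
          (fun _ => t 2) / detA ε K := by
      rw [← hblock]
      congr 1
      ext i j
      rw [Matrix.of_apply, Matrix.of_apply, hW]
    have e1 : TT D x j0 ε (Function.update A0 s (fun m => rename t (mp Ω A m))) (fun _ => t 1)
        (fun _ => t 2) ∈ k := by
      rw [TT_update]
      let u : (Fin c × (Fin 3 →₀ ℕ)) → TP Ω n c := fun a =>
        if a.2.degree + 1 = d a.1 then Pi.single a.1 (monomial (a.2.mapDomain t) 1) else 0
      have hu : ∀ a, IT d (u a) := by
        intro a
        by_cases h : a.2.degree + 1 = d a.1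
        · have e : u a = Pi.single a.1 (monomial (a.2.mapDomain t) 1) := if_pos h
          rw [e]
          exact IT.single (by rw [Finsupp.degree_mapDomain]; exact h)
        · have e : u a = 0 := if_neg h
          rw [e]
          exact ⟨fun m I hI => absurd rfl hI, fun m I => ⟨0, by simp⟩⟩
      have hex : (fun m => rename t (mp Ω A m) : TP Ω n c) =
          ∑ a ∈ Finset.univ.sigma (fun m => (A m).support) |>.map
            ⟨fun a => ((a.1, a.2) : Fin c × (Fin 3 →₀ ℕ)), fun a b h => by
              cases a; cases b; simp at h; obtain ⟨rfl, rfl⟩ := h; rfl⟩,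
            (algebraMap k Ω (coeff a.2 (A a.1))) • u a := by
        rw [Finset.sum_map, Finset.sum_sigma]
        funext m
        rw [Finset.sum_apply, Finset.sum_eq_single m]
        · rw [Finset.sum_apply]
          unfold mp
          conv_lhs => rw [(A m).as_sum]
          rw [map_sum, map_sum]
          refine Finset.sum_congr rfl fun I hI => ?_
          have hdeg : I.degree + 1 = d m := by
            have h1 := hA m (mem_support_iff.1 hI)
            have h3 : I.degree = d m - 1 := by
              rw [Finsupp.degree_eq_weight_one]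
              exact h1
            have h2 := hd m
            omega
          have e : u (m, I) = Pi.single m (monomial (I.mapDomain t) 1) := if_pos hdeg
          change _ = ((algebraMap k Ω (coeff I (A m))) • u (m, I)) m
          rw [e, Pi.smul_apply, Pi.single_eq_same, map_monomial, rename_monomial, smul_monomial,
            smul_eq_mul, mul_one]
        · intro m' _ hm'
          rw [Finset.sum_apply]
          refine Finset.sum_eq_zero fun I _ => ?_
          change ((algebraMap k Ω (coeff I (A m'))) • u (m', I)) m = 0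
          rw [Pi.smul_apply]
          by_cases h : I.degree + 1 = d m'
          · have e : u (m', I) = Pi.single m' (monomial (I.mapDomain t) 1) := if_pos h
            rw [e, Pi.single_eq_of_ne (Ne.symm hm'), smul_zero]
          · have e : u (m', I) = 0 := if_neg h
            rw [e, Pi.zero_apply, smul_zero]
        · intro h; exact absurd (Finset.mem_univ _) h
      rw [hex]
      refine quad_k k (bS D x j0 ε A0 (fun _ => t 1) (fun _ => t 2) s) u (fun a a' => ?_) _ _
        fun a => (coeff a.2 (A a.1)).2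
      rw [← TT_update]
      refine hP.rat _ fun j => ?_
      by_cases hj : j = s
      · subst hj
        rw [Function.update_self]
        exact (hu a).add (hu a')
      · rw [Function.update_of_ne hj]
        exact hA0 j
    have e2 : detA ε K ∈ k := by
      rw [← TT_eq]
      exact hP.rat A0 hA0
    refine ⟨⟨_, k.div_mem e1 e2⟩, ?_⟩
    rw [e0]
    rfl
  · -- one matrix which is invertible
    intro s
    have hc : ∀ m I, coeff I (A0 s m) ∈ k := by
      intro m I
      obtain ⟨z, hz⟩ := (hA0 s).2 m I
      rw [hz]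
      exact intCast_mem k z
    choose A hA using fun m => resP_lift (k := k) P hP.Pk (A0 s m) (hc m)
    refine ⟨A, fun m => ?_, ?_⟩
    · refine hom_of_map (Ω := Ω) ?_
      rw [hA]
      exact hom_resP P (hA0h s m)
    · have e0 : (Matrix.of fun i j : Fin 2 => co (ix s j)
          (WW D x t (mulL (kap (fun i => x (t i)) i) (mp Ω A)))) = 1 := by
        ext i j
        rw [Matrix.of_apply, hW]
        have e1 : VL D x (lf x j0 (t i.succ)) (fun m => rename t (mp Ω A m)) = K (ix s i) := by
          have e2 : VL D x (lf x j0 (t i.succ)) (fun m => rename t (mp Ω A m)) =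
              VL D x (lf x j0 (t i.succ)) (A0 s) := by
            have h1 := VT_rhoc D x t P hP.van hd (hom_lf x j0 (t i.succ)) (A := A0 s) (hA0h s)
            rw [VL_apply, VL_apply]
            have e3 : (fun m => rename t (mp Ω A m) * lf x j0 (t i.succ)) =
                (fun m => lf x j0 (t i.succ) * rename t (resP P (A0 s m))) := by
              funext m
              unfold mp
              rw [hA, mul_comm]
            have e4 : (fun m => A0 s m * lf x j0 (t i.succ)) =
                (fun m => lf x j0 (t i.succ) * A0 s m) := by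
              funext m
              rw [mul_comm]
            change VT D x (fun m => rename t (mp Ω A m) * lf x j0 (t i.succ)) =
              VT D x (fun m => A0 s m * lf x j0 (t i.succ))
            rw [e3, e4]
            exact h1
          rw [e2]
          fin_cases i
          · rfl
          · rfl
        rw [e1, hco1, Matrix.one_apply]
        fin_cases i <;> fin_cases j <;> simp [ix]
      rw [e0, Matrix.det_one]
      exact one_ne_zero

end Pool.Agent.Edge.H60
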